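import Mathlib

set_option autoImplicit false

namespace Pool.Agent.H959R3.OddRing

open Sum

abbrev VV (s : ℕ) := Fin 3 ⊕ (Fin 3 × Fin s)

/-- three hubs `inl i`, three cliques `{inr (j,k)}`; hub `i` is joined completely to the cliques `j ≠ i`. -/
def RG (s : ℕ) : SimpleGraph (VV s) where
  Adj a b := match a, b with
    | inl _, inl _ => False
    | inl i, inr x => i ≠ x.1
    | inr x, inl i => i ≠ x.1
    | inr x, inr y => x.1 = y.1 ∧ x.2 ≠ y.2
  symm := ⟨by
    rintro (i | x) (j | y) h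
    · exact h
    · exact h
    · exact h
    · exact ⟨h.1.symm, h.2.symm⟩⟩
  loopless := ⟨by
    rintro (i | x) h
    · exact h
    · exact h.2 rfl⟩

section basic
variable {s : ℕ}

lemma adj_ll (i j : Fin 3) : ¬ (RG s).Adj (inl i) (inl j) := fun h => h
lemma adj_lr (i : Fin 3) (x : Fin 3 × Fin s) : (RG s).Adj (inl i) (inr x) ↔ i ≠ x.1 := Iff.rfl
lemma adj_rl (i : Fin 3) (x : Fin 3 × Fin s) : (RG s).Adj (inr x) (inl i) ↔ i ≠ x.1 := Iff.rfl
lemma adj_rr (x y : Fin 3 × Fin s) : (RG s).Adj (inr x) (inr y) ↔ x.1 = y.1 ∧ x.2 ≠ y.2 := Iff.rfl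

lemma third (i j : Fin 3) : ∃ k : Fin 3, k ≠ i ∧ k ≠ j := by
  revert i j; decide

lemma univ3 : ∀ (a b d : Fin 3), a ≠ b → d ≠ a → d ≠ b →
    (Finset.univ : Finset (Fin 3)) = {a, b, d} := by
  decide

lemma hub_reach (hs : 2 ≤ s) (v : VV s) (i i' : Fin 3)
    (hi : (inl i : VV s) ≠ v) (hi' : (inl i' : VV s) ≠ v) :
    ((RG s).induce {w : VV s | w ≠ v}).Reachable ⟨inl i, hi⟩ ⟨inl i', hi'⟩ := by
  obtain ⟨j, hj, hj'⟩ := third i i'
  have : ∃ k : Fin s, (inr (j, k) : VV s) ≠ v := by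
    by_cases h0 : (inr (j, ⟨0, by omega⟩) : VV s) = v
    · refine ⟨⟨1, by omega⟩, ?_⟩
      rw [← h0]
      intro h
      simp at h
    · exact ⟨_, h0⟩
  obtain ⟨k, hk⟩ := this
  have a1 : ((RG s).induce {w : VV s | w ≠ v}).Adj ⟨inl i, hi⟩ ⟨inr (j, k), hk⟩ := by
    show (RG s).Adj (inl i) (inr (j,k))
    rw [adj_lr]; exact hj.symm
  have a2 : ((RG s).induce {w : VV s | w ≠ v}).Adj ⟨inr (j, k), hk⟩ ⟨inl i', hi'⟩ := by
    show (RG s).Adj (inr (j,k)) (inl i')
    rw [adj_rl]; exact hj'.symm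
  exact a1.reachable.trans a2.reachable

lemma any_reach (v : VV s) (w : VV s) (hw : w ≠ v) :
    ∃ (i : Fin 3) (hi : (inl i : VV s) ≠ v),
      ((RG s).induce {w : VV s | w ≠ v}).Reachable ⟨w, hw⟩ ⟨inl i, hi⟩ := by
  rcases w with i | ⟨j, k⟩
  · exact ⟨i, hw, SimpleGraph.Reachable.refl _⟩
  · have : ∃ i : Fin 3, i ≠ j ∧ (inl i : VV s) ≠ v := by
      obtain ⟨i, hi, _⟩ := third j j
      obtain ⟨i', hi', hii⟩ := third j i
      by_cases h0 : (inl i : VV s) = v
      · refine ⟨i', hi', ?_⟩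
        rw [← h0]
        intro h
        exact hii (Sum.inl.inj h)
      · exact ⟨i, hi, h0⟩
    obtain ⟨i, hi, hiv⟩ := this
    refine ⟨i, hiv, ?_⟩
    have a1 : ((RG s).induce {w : VV s | w ≠ v}).Adj ⟨inr (j, k), hw⟩ ⟨inl i, hiv⟩ := by
      show (RG s).Adj (inr (j,k)) (inl i)
      rw [adj_rl]; exact hi
    exact a1.reachable

lemma induce_conn (hs : 2 ≤ s) (v : VV s) : ((RG s).induce {w : VV s | w ≠ v}).Connected := by
  have hne : Nonempty {w : VV s | w ≠ v} := by
    by_cases h0 : (inl 0 : VV s) = v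
    · exact ⟨⟨inl 1, by rw [← h0]; intro h; simp at h⟩⟩
    · exact ⟨⟨inl 0, h0⟩⟩
  refine ⟨?_⟩
  rintro ⟨a, ha⟩ ⟨b, hb⟩
  obtain ⟨i, hi, h1⟩ := any_reach v a ha
  obtain ⟨i', hi', h2⟩ := any_reach v b hb
  exact h1.trans ((hub_reach hs v i i' hi hi').trans h2.symm)

lemma card_VV : Fintype.card (VV s) = 3 + 3 * s := by
  simp [VV]

lemma conn (hs : 2 ≤ s) : (RG s).Connected := by
  have : Nonempty (VV s) := ⟨inl 0⟩
  refine ⟨?_⟩
  intro a b
  have : ∃ v : VV s, v ∉ ({a, b} : Finset (VV s)) := by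
    by_contra hcon
    push Not at hcon
    have h1 : (Finset.univ : Finset (VV s)) ⊆ {a, b} := fun x _ => hcon x
    have h2 := Finset.card_le_card h1
    have h3 : ({a, b} : Finset (VV s)).card ≤ 2 := Finset.card_le_two
    rw [Finset.card_univ, card_VV] at h2
    omega
  obtain ⟨v, hv⟩ := this
  simp only [Finset.mem_insert, Finset.mem_singleton, not_or] at hv
  have h := (induce_conn hs v).preconnected ⟨a, fun h => hv.1 h.symm⟩ ⟨b, fun h => hv.2 h.symm⟩
  exact h.map (SimpleGraph.Embedding.induce {w : VV s | w ≠ v}).toHom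

end basic

section colouring
variable {s : ℕ}
open Classical

/-- number of edges of colour `i` at `v` -/
noncomputable def D (c : Sym2 (VV s) → Fin 3) (v : VV s) (i : Fin 3) : ℕ :=
  ∑ w : VV s, if (RG s).Adj v w ∧ c s(v, w) = i then 1 else 0

lemma D_eq (c : Sym2 (VV s) → Fin 3) (v : VV s) (i : Fin 3) :
    {w : VV s | (RG s).Adj v w ∧ c s(v, w) = i}.ncard = D c v i := by
  rw [Set.ncard_eq_toFinset_card', D, ← Finset.card_filter]
  congr 1
  ext w
  simp

noncomputable def e (c : Sym2 (VV s) → Fin 3) (h j : Fin 3) (i : Fin 3) : ℕ :=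
  ∑ k : Fin s, if c s(inl h, inr (j, k)) = i then 1 else 0

lemma D_hub (c : Sym2 (VV s) → Fin 3) (h : Fin 3) (i : Fin 3) :
    D c (inl h) i = ∑ j : Fin 3, if h ≠ j then e c h j i else 0 := by
  unfold D e
  rw [Fintype.sum_sum_type]
  have h0 : (∑ x : Fin 3, if (RG s).Adj (inl h) (inl x) ∧ c s(inl h, inl x) = i then 1 else 0) = 0 := by
    apply Finset.sum_eq_zero
    intro x _
    rw [if_neg]
    rintro ⟨h1, _⟩
    exact adj_ll _ _ h1
  rw [h0, zero_add, Fintype.sum_prod_type]
  apply Finset.sum_congr rfl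
  intro j _
  by_cases hj : h = j
  · subst hj
    simp [adj_lr]
  · simp only [adj_lr, ne_eq, hj, not_false_eq_true, true_and, if_true]

lemma sum_e (c : Sym2 (VV s) → Fin 3) (h j : Fin 3) : ∑ i : Fin 3, e c h j i = s := by
  unfold e
  rw [Finset.sum_comm]
  simp

lemma sum_D (c : Sym2 (VV s) → Fin 3) (v : VV s) :
    ∑ i : Fin 3, D c v i = ∑ w : VV s, if (RG s).Adj v w then 1 else 0 := by
  unfold D
  rw [Finset.sum_comm]
  apply Finset.sum_congr rfl
  intro w _
  by_cases h : (RG s).Adj v w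
  · simp [h]
  · simp [h]

lemma deg_hub (h : Fin 3) : (∑ w : VV s, if (RG s).Adj (inl h) w then 1 else 0) = 2 * s := by
  rw [Fintype.sum_sum_type, Fintype.sum_prod_type]
  simp only [adj_ll, adj_lr, if_false, Finset.sum_const_zero, zero_add, Fin.sum_univ_three]
  fin_cases h <;> simp <;> omega

lemma deg_blob (x : Fin 3 × Fin s) : (∑ w : VV s, if (RG s).Adj (inr x) w then 1 else 0) = s + 1 := by
  obtain ⟨j, k⟩ := x
  rw [Fintype.sum_sum_type, Fintype.sum_prod_type]
  simp only [adj_rl, adj_rr]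
  have h1 : (∑ x : Fin 3, if x ≠ j then 1 else 0) = 2 := by
    revert j; decide
  have h2 : (∑ a : Fin 3, ∑ y : Fin s, if j = a ∧ k ≠ y then 1 else 0) = s - 1 := by
    rw [Finset.sum_eq_single j]
    · simp only [true_and]
      rw [← Finset.card_filter, Finset.filter_ne, Finset.card_erase_of_mem (Finset.mem_univ _)]
      simp
    · intro b _ hb
      apply Finset.sum_eq_zero
      intro y _
      rw [if_neg]
      rintro ⟨h, _⟩
      exact hb h.symm
    · simp
  rw [h1, h2]
  have := k.2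
  omega

lemma D_pos_of_edge (c : Sym2 (VV s) → Fin 3) (v w : VV s) (h : (RG s).Adj v w) :
    D c v (c s(v, w)) ≠ 0 := by
  unfold D
  intro h0
  rw [Finset.sum_eq_zero_iff] at h0
  have := h0 w (Finset.mem_univ _)
  simp [h] at this

/-- key lemma for a blob: some colour is seen by every vertex of the blob and by both adjacent hubs. -/
lemma common_colour (c : Sym2 (VV s) → Fin 3) (hs : 0 < s) (hev : Even s)
    (hc : ∀ v i, D c v i = 0 ∨ Odd (D c v i)) (j h h' : Fin 3) (hj : h ≠ j) (hj' : h' ≠ j) :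
    ∃ i : Fin 3, (∀ k : Fin s, D c (inr (j, k)) i ≠ 0) ∧ D c (inl h) i ≠ 0 ∧ D c (inl h') i ≠ 0 := by
  obtain ⟨m, hm⟩ := hev
  by_cases hmono : ∃ k : Fin s, ∃ i' : Fin 3, D c (inr (j, k)) i' = 0
  · obtain ⟨k, i', hk⟩ := hmono
    have hsum := sum_D c (inr (j, k))
    rw [deg_blob, Fin.sum_univ_three] at hsum
    have h0 := hc (inr (j, k)) 0
    have h1 := hc (inr (j, k)) 1
    have h2 := hc (inr (j, k)) 2
    have hone : ∃ i : Fin 3, ∀ i'' : Fin 3, i'' ≠ i → D c (inr (j, k)) i'' = 0 := by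
      rcases h0 with h0 | ⟨a0, h0⟩ <;> rcases h1 with h1 | ⟨a1, h1⟩ <;>
        rcases h2 with h2 | ⟨a2, h2⟩
      · exact ⟨0, by intro i'' _; fin_cases i'' <;> assumption⟩
      · exact ⟨2, by intro i'' hi; fin_cases i'' <;> first | assumption | exact absurd rfl hi⟩
      · exact ⟨1, by intro i'' hi; fin_cases i'' <;> first | assumption | exact absurd rfl hi⟩
      · omega
      · exact ⟨0, by intro i'' hi; fin_cases i'' <;> first | assumption | exact absurd rfl hi⟩
      · omega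
      · omega
      · exfalso
        fin_cases i'
        · simp at hk; omega
        · simp at hk; omega
        · simp at hk; omega
    obtain ⟨i, hi⟩ := hone
    have hcol : ∀ w, (RG s).Adj (inr (j, k)) w → c s(inr (j, k), w) = i := by
      intro w hw
      by_contra hne
      exact D_pos_of_edge c _ _ hw (hi _ hne)
    refine ⟨i, ?_, ?_, ?_⟩
    · intro k'
      by_cases hkk : k = k'
      · subst hkk
        intro hz
        have hh : (RG s).Adj (inr (j, k)) (inl h) := (adj_rl _ _).2 hj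
        have := D_pos_of_edge c _ _ hh
        rw [hcol _ hh] at this
        exact this hz
      · have hh : (RG s).Adj (inr (j, k)) (inr (j, k')) := (adj_rr _ _).2 ⟨rfl, hkk⟩
        have := D_pos_of_edge c _ _ hh.symm
        rw [Sym2.eq_swap, hcol _ hh] at this
        exact this
    · have hh : (RG s).Adj (inr (j, k)) (inl h) := (adj_rl _ _).2 hj
      have := D_pos_of_edge c _ _ hh.symm
      rw [Sym2.eq_swap, hcol _ hh] at this
      exact this
    · have hh : (RG s).Adj (inr (j, k)) (inl h') := (adj_rl _ _).2 hj'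
      have := D_pos_of_edge c _ _ hh.symm
      rw [Sym2.eq_swap, hcol _ hh] at this
      exact this
  · push Not at hmono
    have hsum := sum_D c (inl h)
    rw [deg_hub, Fin.sum_univ_three] at hsum
    have h0 := hc (inl h) 0
    have h1 := hc (inl h) 1
    have h2 := hc (inl h) 2
    have hsum' := sum_D c (inl h')
    rw [deg_hub, Fin.sum_univ_three] at hsum'
    have h0' := hc (inl h') 0
    have h1' := hc (inl h') 1
    have h2' := hc (inl h') 2
    have : (D c (inl h) 0 ≠ 0 ∧ D c (inl h') 0 ≠ 0) ∨ (D c (inl h) 1 ≠ 0 ∧ D c (inl h') 1 ≠ 0) ∨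
        (D c (inl h) 2 ≠ 0 ∧ D c (inl h') 2 ≠ 0) := by
      have key : ∀ a b d : ℕ, (a = 0 ∨ Odd a) → (b = 0 ∨ Odd b) → (d = 0 ∨ Odd d) →
          a + b + d = 2 * s →
          (a ≠ 0 ∧ b ≠ 0) ∨ (a ≠ 0 ∧ d ≠ 0) ∨ (b ≠ 0 ∧ d ≠ 0) := by
        intro a b d ha hb hd hsum
        rcases ha with ha | ⟨a', ha⟩ <;> rcases hb with hb | ⟨b', hb⟩ <;>
          rcases hd with hd | ⟨d', hd⟩ <;> omega
      have k1 := key _ _ _ h0 h1 h2 hsum
      have k2 := key _ _ _ h0' h1' h2' hsum'
      omega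
    rcases this with h | h | h
    · exact ⟨0, fun k => hmono k 0, h⟩
    · exact ⟨1, fun k => hmono k 1, h⟩
    · exact ⟨2, fun k => hmono k 2, h⟩

/-- the two-colour parity at a hub -/
lemma hub_parity (c : Sym2 (VV s) → Fin 3) (hev : Even s)
    (hc : ∀ v i, D c v i = 0 ∨ Odd (D c v i)) (h j : Fin 3) (hj : h ≠ j) (i i' : Fin 3)
    (hi : D c (inl h) i ≠ 0) (hi' : D c (inl h) i' ≠ 0) :
    e c h j i % 2 = e c h j i' % 2 := by
  by_cases hii : i = i'
  · rw [hii]
  obtain ⟨i'', h1, h2⟩ := third i i'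
  have hsum := sum_D c (inl h)
  rw [deg_hub] at hsum
  have hse := sum_e c h j
  have hle : e c h j i'' ≤ D c (inl h) i'' := by
    rw [D_hub]
    have : e c h j i'' = (if h ≠ j then e c h j i'' else 0) := by rw [if_pos hj]
    rw [this]
    exact Finset.single_le_sum (f := fun j => if h ≠ j then e c h j i'' else 0)
      (fun _ _ => Nat.zero_le _) (Finset.mem_univ j)
  have hu : (Finset.univ : Finset (Fin 3)) = {i, i', i''} := univ3 _ _ _ hii h1 h2
  have hsumf : ∀ f : Fin 3 → ℕ, ∑ x, f x = f i + f i' + f i'' := by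
    intro f
    rw [hu, Finset.sum_insert, Finset.sum_insert, Finset.sum_singleton, add_assoc]
    · simp only [Finset.mem_singleton]; exact h2.symm
    · simp only [Finset.mem_insert, Finset.mem_singleton, not_or]; exact ⟨hii, h1.symm⟩
  rw [hsumf] at hsum hse
  obtain ⟨a, ha⟩ := (hc (inl h) i).resolve_left hi
  obtain ⟨b, hb⟩ := (hc (inl h) i').resolve_left hi'
  obtain ⟨m, hm⟩ := hev
  have h3 : D c (inl h) i'' = 0 := by
    rcases hc (inl h) i'' with h3 | ⟨d, h3⟩
    · exact h3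
    · omega
  omega

/-- the blob double count -/
lemma blob_sum (c : Sym2 (VV s) → Fin 3) (j h h' : Fin 3) (hj : h ≠ j) (hj' : h' ≠ j)
    (hh : h ≠ h') (i : Fin 3) :
    (∑ k : Fin s, D c (inr (j, k)) i) % 2 = (e c h j i + e c h' j i) % 2 := by
  let H : SimpleGraph (Fin s) :=
    { Adj := fun k k' => k ≠ k' ∧ c s(inr (j, k), inr (j, k')) = i
      symm := ⟨fun k k' hk => ⟨hk.1.symm, by rw [Sym2.eq_swap]; exact hk.2⟩⟩
      loopless := ⟨fun k hk => hk.1 rfl⟩ }
  have hu : (Finset.univ : Finset (Fin 3)) = {h, h', j} := univ3 _ _ _ hh hj.symm hj'.symm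
  have hsumf : ∀ f : Fin 3 → ℕ, ∑ x, f x = f h + f h' + f j := by
    intro f
    rw [hu, Finset.sum_insert, Finset.sum_insert, Finset.sum_singleton, add_assoc]
    · simp only [Finset.mem_singleton]; exact hj'
    · simp only [Finset.mem_insert, Finset.mem_singleton, not_or]; exact ⟨hh, hj⟩
  have hD : ∀ k : Fin s, D c (inr (j, k)) i =
      (if c s(inl h, inr (j, k)) = i then 1 else 0) +
      (if c s(inl h', inr (j, k)) = i then 1 else 0) + H.degree k := by
    intro k
    unfold D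
    rw [Fintype.sum_sum_type, Fintype.sum_prod_type, hsumf]
    congr 1
    · simp only [adj_rl]
      simp only [ne_eq, hj, hj', not_false_eq_true, true_and, not_true_eq_false, false_and,
        if_false, add_zero]
      rw [Sym2.eq_swap (a := inr (j, k)) (b := inl h), Sym2.eq_swap (a := inr (j, k)) (b := inl h')]
    · rw [Finset.sum_eq_single j]
      · rw [← Finset.card_filter, ← SimpleGraph.card_neighborFinset_eq_degree]
        congr 1
        ext k'
        simp only [adj_rr, Finset.mem_filter, Finset.mem_univ, true_and,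
          SimpleGraph.mem_neighborFinset, H]
      · intro b _ hb
        apply Finset.sum_eq_zero
        intro y _
        rw [if_neg]
        rintro ⟨h1, _⟩
        exact hb ((adj_rr _ _).1 h1).1.symm
      · intro hn; exact absurd (Finset.mem_univ _) hn
  rw [Finset.sum_congr rfl (fun k _ => hD k), Finset.sum_add_distrib, Finset.sum_add_distrib,
    SimpleGraph.sum_degrees_eq_twice_card_edges]
  unfold e
  omega

lemma no_colouring (c : Sym2 (VV s) → Fin 3) (hs : 0 < s) (hev : Even s)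
    (hc : ∀ v i, D c v i = 0 ∨ Odd (D c v i)) : False := by
  -- common colours
  have hcommon : ∀ j h h' : Fin 3, h ≠ j → h' ≠ j → h ≠ h' →
      ∃ i : Fin 3, D c (inl h) i ≠ 0 ∧ D c (inl h') i ≠ 0 ∧ (e c h j i + e c h' j i) % 2 = 0 := by
    intro j h h' hj hj' hh
    obtain ⟨i, hi, h1, h2⟩ := common_colour c hs hev hc j h h' hj hj'
    refine ⟨i, h1, h2, ?_⟩
    rw [← blob_sum c j h h' hj hj' hh i]
    have hodd : ∀ k : Fin s, D c (inr (j, k)) i % 2 = 1 := by
      intro k
      obtain ⟨a, ha⟩ := (hc (inr (j, k)) i).resolve_left (hi k)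
      omega
    rw [Finset.sum_nat_mod, Finset.sum_congr rfl (fun k _ => hodd k)]
    simp only [Finset.sum_const, Finset.card_univ, Fintype.card_fin, smul_eq_mul, mul_one]
    exact Nat.even_iff.1 hev
  obtain ⟨i0, a0, b0, c0⟩ := hcommon 0 1 2 (by decide) (by decide) (by decide)
  obtain ⟨i1, a1, b1, c1⟩ := hcommon 1 0 2 (by decide) (by decide) (by decide)
  obtain ⟨i2, a2, b2, c2⟩ := hcommon 2 0 1 (by decide) (by decide) (by decide)
  -- hub 0 : blobs 1,2 ; colours i1, i2
  have p0 := hub_parity c hev hc 0 2 (by decide) i1 i2 a1 a2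
  have p1 := hub_parity c hev hc 1 2 (by decide) i0 i2 a0 b2
  have p2 := hub_parity c hev hc 2 1 (by decide) i0 i1 b0 b1
  have o0 := (hc (inl 0) i1).resolve_left a1
  have o1 := (hc (inl 1) i0).resolve_left a0
  have o2 := (hc (inl 2) i0).resolve_left b0
  rw [D_hub, Fin.sum_univ_three] at o0 o1 o2
  simp only [ne_eq, not_true_eq_false, if_false, Fin.isValue, zero_ne_one, not_false_eq_true,
    if_true, one_ne_zero, zero_add, add_zero, show (0 : Fin 3) ≠ 2 by decide,
    show (1 : Fin 3) ≠ 2 by decide, show (2 : Fin 3) ≠ 0 by decide,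
    show (2 : Fin 3) ≠ 1 by decide] at o0 o1 o2
  rw [Nat.odd_iff] at o0 o1 o2
  omega

end colouring

theorem main :
    ¬ (∃ d : ℕ, ∀ (V : Type) [Fintype V] (G : SimpleGraph V),
      G.Connected →
      3 ≤ Fintype.card V →
      (∀ v : V, (G.induce {w : V | w ≠ v}).Connected) →
      Odd (Fintype.card V) →
      (∀ v : V, d ≤ (G.neighborSet v).ncard) →
      ∃ c : Sym2 V → Fin 3, ∀ (v : V) (i : Fin 3),
        {w : V | G.Adj v w ∧ c s(v, w) = i}.ncard = 0 ∨
          Odd {w : V | G.Adj v w ∧ c s(v, w) = i}.ncard) := by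
  classical
  rintro ⟨d, hd⟩
  have hs : 2 ≤ 2 * (d + 1) := by omega
  obtain ⟨c, hc⟩ := hd (VV (2 * (d + 1))) (RG (2 * (d + 1))) (conn hs)
    (by rw [card_VV]; omega) (fun v => induce_conn hs v)
    (by rw [card_VV, Nat.odd_iff]; omega)
    (by
      intro v
      have hnb : ((RG (2 * (d + 1))).neighborSet v).ncard =
          ∑ w : VV (2 * (d + 1)), if (RG (2 * (d + 1))).Adj v w then 1 else 0 := by
        rw [Set.ncard_eq_toFinset_card', ← Finset.card_filter]
        congr 1
        ext w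
        simp
      rw [hnb]
      rcases v with h | x
      · rw [deg_hub]; omega
      · rw [deg_blob]; omega)
  refine no_colouring c (by omega) ⟨d + 1, by ring⟩ ?_
  intro v i
  rw [← D_eq]
  exact hc v i

end Pool.Agent.H959R3.OddRing
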